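import Pool.Agent.H693.SR.Stm

set_option autoImplicit false

namespace Pool.Agent.H874.SR

open Finset

/-- number of multiples of `d` -/
theorem card_mul_le (x d : ℕ) : (#((Ico 1 x).filter (fun n => d ∣ n)) : ℝ) ≤ x / d := by
  have h1 : (Ico 1 x).filter (fun n => d ∣ n) ⊆ (Ioc 0 x).filter (fun n => d ∣ n) := by
    intro n hn
    rw [mem_filter, mem_Ico] at hn
    rw [mem_filter, mem_Ioc]
    exact ⟨⟨by omega, by omega⟩, hn.2⟩
  have h2 := card_le_card h1
  rw [Nat.Ioc_filter_dvd_card_eq_div] at h2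
  calc (#((Ico 1 x).filter (fun n => d ∣ n)) : ℝ) ≤ ((x / d : ℕ) : ℝ) := by exact_mod_cast h2
    _ ≤ x / d := Nat.cast_div_le

/-- indicator of divisibility -/
noncomputable def e (q n : ℕ) : ℝ := if q ∣ n then 1 else 0

theorem e_sum (s : Finset ℕ) (q : ℕ) : ∑ n ∈ s, e q n = #(s.filter (fun n => q ∣ n)) := by
  unfold e
  rw [Finset.sum_boole]

theorem e_mul_self (q n : ℕ) : e q n * e q n = e q n := by
  unfold e
  split_ifs <;> simp

theorem e_mul_le (q q' n : ℕ) (h : Nat.Coprime q q') : e q n * e q' n ≤ e (q * q') n := by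
  unfold e
  by_cases h1 : q ∣ n
  · by_cases h2 : q' ∣ n
    · rw [if_pos h1, if_pos h2, if_pos (Nat.Coprime.mul_dvd_of_dvd_of_dvd h h1 h2)]
      norm_num
    · rw [if_neg h2, mul_zero]
      split_ifs <;> norm_num
  · rw [if_neg h1, zero_mul]
    split_ifs <;> norm_num

/-- second moment -/
theorem second (x : ℕ) (Q : Finset ℕ) (hQ : ∀ q ∈ Q, q.Prime) :
    ∑ n ∈ Ico 1 x, (∑ q ∈ Q, e q n) ^ 2 ≤
      x * ((∑ q ∈ Q, (1 : ℝ) / q) ^ 2 + ∑ q ∈ Q, (1 : ℝ) / q) := by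
  have h1 : ∀ n, (∑ q ∈ Q, e q n) ^ 2 = ∑ q ∈ Q, ∑ q' ∈ Q, e q n * e q' n := by
    intro n
    rw [pow_two, Finset.sum_mul_sum]
  simp only [h1]
  rw [Finset.sum_comm]
  have h2 : ∀ q ∈ Q, ∑ n ∈ Ico 1 x, ∑ q' ∈ Q, e q n * e q' n ≤
      x * (1 / (q : ℝ) * ∑ q' ∈ Q, (1 : ℝ) / q') + x * (1 / (q : ℝ)) := by
    intro q hq
    rw [Finset.sum_comm]
    have h3 : ∀ q' ∈ Q, ∑ n ∈ Ico 1 x, e q n * e q' n ≤
        x * (1 / (q : ℝ) * (1 / (q' : ℝ))) + if q = q' then x * (1 / (q : ℝ)) else 0 := by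
      intro q' hq'
      by_cases hqq : q = q'
      · subst hqq
        rw [if_pos rfl]
        simp only [e_mul_self]
        rw [e_sum]
        have h4 := card_mul_le x q
        have h5 : (0 : ℝ) ≤ x * (1 / (q : ℝ) * (1 / (q : ℝ))) := by positivity
        have h6 : (x : ℝ) / q = x * (1 / (q : ℝ)) := by ring
        rw [h6] at h4
        linarith
      · rw [if_neg hqq, add_zero]
        have hcop : Nat.Coprime q q' := (Nat.coprime_primes (hQ q hq) (hQ q' hq')).mpr hqq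
        have h4 : ∑ n ∈ Ico 1 x, e q n * e q' n ≤ ∑ n ∈ Ico 1 x, e (q * q') n :=
          Finset.sum_le_sum fun n _ => e_mul_le q q' n hcop
        rw [e_sum] at h4
        have h5 := card_mul_le x (q * q')
        have h6 : (x : ℝ) / ((q * q' : ℕ) : ℝ) = x * (1 / (q : ℝ) * (1 / (q' : ℝ))) := by
          push_cast
          rw [one_div_mul_one_div, mul_one_div]
        rw [h6] at h5
        linarith
    refine (Finset.sum_le_sum h3).trans (le_of_eq ?_)
    rw [Finset.sum_add_distrib, Finset.sum_ite_eq, if_pos hq, ← Finset.mul_sum, ← Finset.mul_sum]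
  refine (Finset.sum_le_sum h2).trans (le_of_eq ?_)
  rw [Finset.sum_add_distrib, ← Finset.mul_sum, ← Finset.sum_mul, ← Finset.mul_sum]
  ring

open Classical in
theorem main (c : ℝ) (k y : ℕ) (N : Set ℕ) (hc : 0 < c) (hc1 : c ≤ 1)
    (hy : (y : ℝ) ≤ c / 16 * 2 ^ k)
    (hN : ∀ q m : ℕ, q.Prime → q ∈ N → 1 ≤ m → m ∉ N → q * m < 2 ^ k → q * m ∈ N)
    (Q : Finset ℕ) (hQ : ∀ q ∈ Q, q.Prime ∧ q ∈ N ∧ q ≤ y)
    (hS : c ≤ ∑ q ∈ Q, (1 : ℝ) / q)
    (hT : ∀ i ≤ k, (#((range (2 ^ i)).filter (fun n => n ∈ N)) : ℝ) < c / 8 * 2 ^ i) :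
    False := by
  -- powers of two
  have hx0 : 0 < 2 ^ k := by positivity
  have hxR : ((2 ^ k : ℕ) : ℝ) = 2 ^ k := by push_cast; rfl
  have hxpos : (0 : ℝ) < 2 ^ k := by positivity
  -- bound for all z
  have hTz : ∀ z : ℕ, 1 ≤ z → z ≤ 2 ^ k →
      (#((range z).filter (fun n => n ∈ N)) : ℝ) ≤ c / 4 * z := by
    intro z hz hzk
    rcases Nat.lt_or_ge z (2 ^ k) with h | h
    · have h1 : Nat.log 2 z < k := Nat.log_lt_of_lt_pow (by omega) h
      have h2 := hT (Nat.log 2 z + 1) (by omega)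
      have h3 : z < 2 ^ (Nat.log 2 z + 1) := Nat.lt_pow_succ_log_self (by norm_num) z
      have h4 : 2 ^ Nat.log 2 z ≤ z := Nat.pow_log_le_self 2 (by omega)
      have h5 : #((range z).filter (fun n => n ∈ N)) ≤
          #((range (2 ^ (Nat.log 2 z + 1))).filter (fun n => n ∈ N)) :=
        card_le_card (filter_subset_filter _ (range_subset_range.mpr h3.le))
      have h6 : (#((range z).filter (fun n => n ∈ N)) : ℝ) ≤
          (#((range (2 ^ (Nat.log 2 z + 1))).filter (fun n => n ∈ N)) : ℝ) := by exact_mod_cast h5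
      have h7 : (2 : ℝ) ^ Nat.log 2 z ≤ z := by exact_mod_cast h4
      have h8 : c / 8 * (2 : ℝ) ^ (Nat.log 2 z + 1) ≤ c / 4 * z := by
        rw [pow_succ]
        have : c / 8 * ((2 : ℝ) ^ Nat.log 2 z * 2) = c / 4 * (2 : ℝ) ^ Nat.log 2 z := by ring
        rw [this]
        exact mul_le_mul_of_nonneg_left h7 (by positivity)
      linarith
    · have hz2 : z = 2 ^ k := le_antisymm hzk h
      subst hz2
      have h2 := hT k le_rfl
      rw [hxR]
      have : c / 8 * (2 : ℝ) ^ k ≤ c / 4 * 2 ^ k := by nlinarith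
      linarith
  -- lower bound for each q
  have hW : ∀ q ∈ Q, (1 - c / 4) * ((2 : ℝ) ^ k * (1 / (q : ℝ))) - 1 ≤
      (#((Icc 1 ((2 ^ k - 1) / q)).filter (fun m => m ∉ N)) : ℝ) := by
    intro q hq
    have hqp : 0 < q := (hQ q hq).1.pos
    have hqR : (0 : ℝ) < q := by exact_mod_cast hqp
    set M := (2 ^ k - 1) / q with hM
    have h1 : #((Icc 1 M).filter (fun m => m ∈ N)) + #((Icc 1 M).filter (fun m => ¬ m ∈ N)) =
        #(Icc 1 M) := Finset.card_filter_add_card_filter_not _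
    rw [Nat.card_Icc, Nat.add_sub_cancel] at h1
    have h2 : #((Icc 1 M).filter (fun m => m ∈ N)) ≤ #((range (M + 1)).filter (fun m => m ∈ N)) := by
      apply card_le_card
      apply filter_subset_filter
      intro m hm
      rw [mem_Icc] at hm
      rw [mem_range]
      omega
    have hM1 : M + 1 ≤ 2 ^ k := by
      have : M ≤ 2 ^ k - 1 := Nat.div_le_self _ _
      omega
    have h3 := hTz (M + 1) (by omega) hM1
    have h4 : 2 ^ k ≤ q * (M + 1) := by
      have := Nat.lt_mul_div_succ (2 ^ k - 1) hqp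
      rw [← hM] at this
      omega
    have h5 : (2 : ℝ) ^ k ≤ q * (M + 1) := by exact_mod_cast h4
    have h6 : (2 : ℝ) ^ k * (1 / (q : ℝ)) ≤ M + 1 := by
      rw [mul_one_div, div_le_iff₀ hqR]
      linarith
    have h7 : (#((Icc 1 M).filter (fun m => m ∈ N)) : ℝ) +
        (#((Icc 1 M).filter (fun m => ¬ m ∈ N)) : ℝ) = M := by exact_mod_cast h1
    have h8 : (#((Icc 1 M).filter (fun m => m ∈ N)) : ℝ) ≤
        (#((range (M + 1)).filter (fun m => m ∈ N)) : ℝ) := by exact_mod_cast h2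
    push_cast at h3
    nlinarith
  -- the set of the nonresidues
  set F := (Ico 1 (2 ^ k)).filter (fun n => n ∈ N) with hF
  have hW2 : ∀ q ∈ Q, (#((Icc 1 ((2 ^ k - 1) / q)).filter (fun m => m ∉ N)) : ℝ) ≤
      ∑ n ∈ F, e q n := by
    intro q hq
    have hqp : 0 < q := (hQ q hq).1.pos
    rw [e_sum]
    have : #((Icc 1 ((2 ^ k - 1) / q)).filter (fun m => m ∉ N)) ≤ #(F.filter (fun n => q ∣ n)) := by
      apply Finset.card_le_card_of_injOn (fun m => q * m)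
      · intro m hm
        rw [Finset.mem_coe, mem_filter, mem_Icc] at hm
        obtain ⟨⟨hm1, hm2⟩, hm3⟩ := hm
        rw [Finset.mem_coe, mem_filter, hF, mem_filter, mem_Ico]
        have h1 : q * m ≤ 2 ^ k - 1 := by
          have := Nat.mul_le_of_le_div q m (2 ^ k - 1) hm2
          rw [mul_comm]
          exact this
        have h2 : q * m < 2 ^ k := by omega
        exact ⟨⟨⟨Nat.mul_pos hqp hm1, h2⟩,
          hN q m (hQ q hq).1 (hQ q hq).2.1 hm1 hm3 h2⟩, dvd_mul_right q m⟩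
      · intro m _ m' _ h
        exact Nat.eq_of_mul_eq_mul_left hqp h
    exact_mod_cast this
  -- sums
  set S := ∑ q ∈ Q, (1 : ℝ) / q with hSdef
  have hSpos : 0 < S := lt_of_lt_of_le hc hS
  have hcard : (#Q : ℝ) ≤ y := by
    have h1 : Q ⊆ Icc 1 y := by
      intro q hq
      rw [mem_Icc]
      exact ⟨(hQ q hq).1.one_le, (hQ q hq).2.2⟩
    have h2 := card_le_card h1
    rw [Nat.card_Icc, Nat.add_sub_cancel] at h2
    exact_mod_cast h2
  have hlow : (1 - c / 4) * ((2 : ℝ) ^ k * S) - #Q ≤ ∑ q ∈ Q, ∑ n ∈ F, e q n := by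
    have h1 := Finset.sum_le_sum fun q hq => (hW q hq).trans (hW2 q hq)
    rw [Finset.sum_sub_distrib, ← Finset.mul_sum, ← Finset.mul_sum, Finset.sum_const,
      nsmul_eq_mul, mul_one] at h1
    exact h1
  rw [Finset.sum_comm] at hlow
  set W := ∑ n ∈ F, ∑ q ∈ Q, e q n with hWdef
  have hWl : S * 2 ^ k / 2 ≤ W := by
    have h1 : c / 16 * 2 ^ k ≤ S / 16 * 2 ^ k := by
      apply mul_le_mul_of_nonneg_right _ hxpos.le
      linarith
    have h2 : 0 < S * 2 ^ k := by positivity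
    have h3 : c * (S * 2 ^ k) ≤ 1 * (S * 2 ^ k) := mul_le_mul_of_nonneg_right hc1 h2.le
    nlinarith
  have hCS : W ^ 2 ≤ #F * ∑ n ∈ F, (∑ q ∈ Q, e q n) ^ 2 := sq_sum_le_card_mul_sum_sq
  have hsub : ∑ n ∈ F, (∑ q ∈ Q, e q n) ^ 2 ≤ ∑ n ∈ Ico 1 (2 ^ k), (∑ q ∈ Q, e q n) ^ 2 :=
    Finset.sum_le_sum_of_subset_of_nonneg (filter_subset _ _) fun n _ _ => sq_nonneg _
  have hsec := second (2 ^ k) Q fun q hq => (hQ q hq).1
  rw [hxR, ← hSdef] at hsec
  have hFc : (#F : ℝ) < c / 8 * 2 ^ k := by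
    have h1 : #F ≤ #((range (2 ^ k)).filter (fun n => n ∈ N)) := by
      apply card_le_card
      apply filter_subset_filter
      intro m hm
      rw [mem_Ico] at hm
      rw [mem_range]
      exact hm.2
    have h2 : (#F : ℝ) ≤ (#((range (2 ^ k)).filter (fun n => n ∈ N)) : ℝ) := by exact_mod_cast h1
    exact lt_of_le_of_lt h2 (hT k le_rfl)
  have hR : (0 : ℝ) < 2 ^ k * (S ^ 2 + S) := by positivity
  have h1 : W ^ 2 < c / 8 * 2 ^ k * (2 ^ k * (S ^ 2 + S)) := by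
    calc W ^ 2 ≤ #F * ∑ n ∈ F, (∑ q ∈ Q, e q n) ^ 2 := hCS
      _ ≤ #F * (2 ^ k * (S ^ 2 + S)) :=
          mul_le_mul_of_nonneg_left (hsub.trans hsec) (Nat.cast_nonneg _)
      _ < c / 8 * 2 ^ k * (2 ^ k * (S ^ 2 + S)) := mul_lt_mul_of_pos_right hFc hR
  have h2 : (S * 2 ^ k / 2) ^ 2 ≤ W ^ 2 := pow_le_pow_left₀ (by positivity) hWl 2
  have h3 : c * (S + 1) ≤ 2 * S := by
    have : c * S ≤ 1 * S := mul_le_mul_of_nonneg_right hc1 hSpos.le
    linarith
  have h4 : c / 8 * 2 ^ k * (2 ^ k * (S ^ 2 + S)) ≤ (S * 2 ^ k / 2) ^ 2 := by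
    have h5 : c / 8 * 2 ^ k * (2 ^ k * (S ^ 2 + S)) = (2 ^ k) ^ 2 * S / 8 * (c * (S + 1)) := by ring
    have h6 : (S * 2 ^ k / 2) ^ 2 = (2 ^ k) ^ 2 * S / 8 * (2 * S) := by ring
    rw [h5, h6]
    exact mul_le_mul_of_nonneg_left h3 (by positivity)
  linarith

open Classical in
theorem t_B : H693SR.S_B := by
  intro c k y N hc hc1 hy hN hS
  by_contra hcon
  push Not at hcon
  refine main c k y N hc hc1 hy hN _ ?_ hS hcon
  intro q hq
  obtain ⟨h1, h2⟩ := Finset.mem_filter.mp hq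
  exact ⟨h2.1, h2.2, (Finset.mem_Icc.mp h1).2⟩

end Pool.Agent.H874.SR
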